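import Pool.Agent.V5helper27.BM.Stm

set_option autoImplicit false

/-!
# Project BM, job INT: the real analysis lemma
-/

open Filter Topology Set Metric MeasureTheory

namespace Pool.Agent.V5helper85.BM

open Pool.Agent.V5helper27.BM

/-- splitting the integral over a period into `M` parts -/
theorem split_integral {g : ℝ → ℝ} (hg : Continuous g) {M : ℕ} (hM : 1 ≤ M) :
    ∫ θ in (0:ℝ)..(2 * Real.pi), g θ =
      1 / (M : ℝ) * ∑ j ∈ Finset.range M, ∫ y in (0:ℝ)..(2 * Real.pi), g ((y + 2 * Real.pi * j) / M) := by
  have hM0 : (M : ℝ) ≠ 0 := by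
    have : 0 < M := hM
    positivity
  have h1 := intervalIntegral.sum_integral_adjacent_intervals (μ := volume) (f := g)
    (a := fun k : ℕ => 2 * Real.pi * k / M) (n := M)
    (fun k _ => hg.intervalIntegrable _ _)
  have e1 : 2 * Real.pi * ((0 : ℕ) : ℝ) / M = 0 := by simp
  have e2 : 2 * Real.pi * ((M : ℕ) : ℝ) / M = 2 * Real.pi := by field_simp
  simp only [e1, e2] at h1
  rw [← h1, Finset.mul_sum]
  refine Finset.sum_congr rfl fun k _ => ?_
  have h2 := intervalIntegral.integral_comp_div_add (a := 0) (b := 2 * Real.pi) (f := g) hM0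
    (2 * Real.pi * k / M)
  have e3 : ∀ y : ℝ, (y + 2 * Real.pi * k) / M = y / M + 2 * Real.pi * k / M := fun y => by ring
  simp only [e3]
  rw [h2, smul_eq_mul, ← mul_assoc, one_div, inv_mul_cancel₀ hM0, one_mul]
  congr 1
  · simp
  · push_cast
    ring

theorem intl : S_int := by
  intro M a b B B' f f₁ F hM ha hab hb hf hf1 hF hf0 hf10 hF0 hper hper1 h1 h2
  have hM0 : (0 : ℝ) < M := by
    have : 0 < M := hM
    positivity
  have hpi := Real.pi_pos
  have hFint : IntervalIntegrable F volume a b := hF.intervalIntegrable_of_Icc hab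
  have hFnn : 0 ≤ ∫ θ in a..b, F θ := intervalIntegral.integral_nonneg hab hF0
  -- each part
  have key : ∀ j ∈ Finset.range M,
      Real.exp (-(B + B')) * (1 / (2 * Real.pi) *
        ∫ y in (0:ℝ)..(2 * Real.pi), f₁ ((y + 2 * Real.pi * j) / M)) * (∫ θ in a..b, F θ) ≤
      ∫ y in (0:ℝ)..(2 * Real.pi), f ((y + 2 * Real.pi * j) / M) := by
    intro j hj
    rw [Finset.mem_range] at hj
    have hcf : Continuous fun y : ℝ => f ((y + 2 * Real.pi * j) / M) := by fun_prop
    have hcf1 : Continuous fun y : ℝ => f₁ ((y + 2 * Real.pi * j) / M) := by fun_prop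
    set m := 1 / (2 * Real.pi) * ∫ y in (0:ℝ)..(2 * Real.pi), f₁ ((y + 2 * Real.pi * j) / M)
      with hm
    -- average
    have hav : ∀ θ ∈ Icc a b, Real.exp (-B') * m ≤ f₁ ((θ + 2 * Real.pi * j) / M) := by
      intro θ hθ
      have h3 : ∫ y in (0:ℝ)..(2 * Real.pi), Real.exp (-B') * f₁ ((y + 2 * Real.pi * j) / M) ≤
          ∫ y in (0:ℝ)..(2 * Real.pi), f₁ ((θ + 2 * Real.pi * j) / M) := by
        apply intervalIntegral.integral_mono_on (by positivity)
        · exact (continuous_const.mul hcf1).intervalIntegrable _ _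
        · exact continuous_const.intervalIntegrable _ _
        · intro y hy
          apply h2
          have e : (θ + 2 * Real.pi * j) / M - (y + 2 * Real.pi * j) / M = (θ - y) / M := by ring
          rw [e, abs_div, abs_of_pos hM0]
          apply div_le_div_of_nonneg_right _ hM0.le
          rw [abs_le]
          have := hy.1
          have := hy.2
          have := hθ.1
          have := hθ.2
          constructor <;> linarith
      rw [intervalIntegral.integral_const_mul, intervalIntegral.integral_const, smul_eq_mul,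
        sub_zero] at h3
      have h4 : Real.exp (-B') * m = 1 / (2 * Real.pi) * (Real.exp (-B') *
          ∫ y in (0:ℝ)..(2 * Real.pi), f₁ ((y + 2 * Real.pi * j) / M)) := by
        rw [hm]
        ring
      rw [h4]
      calc 1 / (2 * Real.pi) * (Real.exp (-B') *
          ∫ y in (0:ℝ)..(2 * Real.pi), f₁ ((y + 2 * Real.pi * j) / M))
          ≤ 1 / (2 * Real.pi) * (2 * Real.pi * f₁ ((θ + 2 * Real.pi * j) / M)) := by
            apply mul_le_mul_of_nonneg_left h3 (by positivity)
        _ = f₁ ((θ + 2 * Real.pi * j) / M) := by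
            field_simp
    calc Real.exp (-(B + B')) * m * (∫ θ in a..b, F θ)
        = ∫ θ in a..b, Real.exp (-B) * ((Real.exp (-B') * m) * F θ) := by
          rw [intervalIntegral.integral_const_mul, intervalIntegral.integral_const_mul,
            show -(B + B') = -B + -B' by ring, Real.exp_add]
          ring
      _ ≤ ∫ θ in a..b, f ((θ + 2 * Real.pi * j) / M) := by
          apply intervalIntegral.integral_mono_on hab
          · exact (hFint.const_mul _).const_mul _
          · exact hcf.intervalIntegrable _ _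
          · intro θ hθ
            refine le_trans ?_ (h1 j hj θ hθ)
            apply mul_le_mul_of_nonneg_left _ (Real.exp_pos _).le
            exact mul_le_mul_of_nonneg_right (hav θ hθ) (hF0 θ hθ)
      _ ≤ ∫ y in (0:ℝ)..(2 * Real.pi), f ((y + 2 * Real.pi * j) / M) := by
          apply intervalIntegral.integral_mono_interval ha hab hb
          · exact Filter.Eventually.of_forall fun y => hf0 _
          · exact hcf.intervalIntegrable _ _
  rw [split_integral hf hM, split_integral hf1 hM]
  have hsum := Finset.sum_le_sum key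
  have e : Real.exp (-(B + B')) / (2 * Real.pi) * (1 / (M : ℝ) * ∑ j ∈ Finset.range M,
      ∫ y in (0:ℝ)..(2 * Real.pi), f₁ ((y + 2 * Real.pi * j) / M)) * (∫ θ in a..b, F θ) =
      1 / (M : ℝ) * ∑ j ∈ Finset.range M, Real.exp (-(B + B')) * (1 / (2 * Real.pi) *
        ∫ y in (0:ℝ)..(2 * Real.pi), f₁ ((y + 2 * Real.pi * j) / M)) * (∫ θ in a..b, F θ) := by
    rw [← Finset.sum_mul, ← Finset.mul_sum, ← Finset.mul_sum]
    ring
  rw [e]
  exact mul_le_mul_of_nonneg_left hsum (by positivity)

end Pool.Agent.V5helper85.BM
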