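import Pool.Agent.V5helper85.BM.SUBROT

set_option autoImplicit false

/-!
# Project BM, job SM: supermultiplicativity
-/

open Complex Filter Topology Set Metric MeasureTheory

namespace Pool.Agent.V5helper85.BM

open Pool.Agent.V5helper27.BM

theorem sm (hdat : S_dat) (hlip : S_lip) (hint : S_int) (hsub : S_sub) (hrot : S_rot) : S_sm := by
  obtain ⟨A, B, δ, δ', hB, hδ0, hδ1, hδ'0, hδ'1, hD⟩ := hdat
  obtain ⟨c, hc0, hR⟩ := hrot δ' hδ'0 hδ'1
  have hpi := Real.pi_pos
  have hpi3 := Real.pi_gt_three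
  set C : ℝ := (5 * B + 3 * |A| + 6 * Real.pi) + |Real.log (4 * Real.pi / c)| with hC
  have hC0 : 0 ≤ C := by positivity
  refine ⟨A, C, δ', hC0, hδ'0, fun ψ h hs t x hx0 hxδ => ?_⟩
  obtain ⟨ψ₂, h₂, hs2, hrot2⟩ := hR ψ h hs t x hx0
  obtain ⟨l, Φ, hDat, hloc⟩ := hD ψ₂ h₂ hs2
  refine ⟨l, Φ, hDat, fun M hM ψ₁ h₁ hs1 => ?_⟩
  obtain ⟨φ, φ', hφ'c, hφ, hφ1, hφ2⟩ := hloc x hx0 hxδ
  obtain ⟨ψT, hsT⟩ := hDat.tr M hM ψ₁ h₁ hs1
  have hM0 : (0 : ℝ) < M := by
    have : 0 < M := by omega
    positivity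
  have hMc : (M : ℂ) ≠ 0 := by
    have : M ≠ 0 := by omega
    exact_mod_cast this
  have hxM : 0 < x / M := by positivity
  have h1M : (0 : ℝ) < 1 / M := by positivity
  set a := Real.pi / 2 - δ with ha
  set b := Real.pi / 2 + δ with hb
  have hab : a ≤ b := by rw [ha, hb]; linarith
  have ha0 : 0 ≤ a := by rw [ha]; linarith
  have hb2 : b ≤ 2 * Real.pi := by rw [hb]; linarith
  set S := Real.sqrt (LR (Real.exp x)) with hS
  have hS0 : 0 ≤ S := Real.sqrt_nonneg _
  set D := 4 * (B * (1 + S)) + 3 * |A| + B with hDdef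
  set f : ℝ → ℝ := fun y => Real.exp (t * TH l Φ A M h₁ (cexp ((x / M : ℝ) + y * I))).re with hf
  set f₁ : ℝ → ℝ := fun y => Real.exp (t * h₁ (cexp ((1 / M : ℝ) + y * I))).re with hf1
  set F₂ : ℝ → ℝ := fun y => Real.exp (t * h₂ (cexp (x + y * I))).re with hF2
  have hfc : Continuous f := continuous_circle hsT.2.2.2.1 hxM t
  have hf1c : Continuous f₁ := continuous_circle hs1.2.2.2.1 h1M t
  have hF2c : Continuous F₂ := continuous_circle hs2.2.2.2.1 hx0 t
  have hφc : ContinuousOn φ (Icc a b) := fun θ hθ => ((hφ θ hθ).1.continuousAt).continuousWithinAt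
  have key := hint M a b (‖t‖ * D) (‖t‖ * (6 * Real.pi)) f f₁ (fun θ => F₂ (φ θ)) (by omega) ha0 hab
    hb2 hfc hf1c (hF2c.comp_continuousOn hφc) (fun _ => (Real.exp_pos _).le)
    (fun _ => (Real.exp_pos _).le) (fun _ _ => (Real.exp_pos _).le)
    (periodic_circle _ _ _) (periodic_circle _ _ _)
    (by
      intro j hj θ hθ
      obtain ⟨-, -, -, hl, hΦ⟩ := hφ θ hθ
      set y : ℝ := (θ + 2 * Real.pi * j) / M with hy
      set u : ℂ := cexp (x + θ * I) with hu
      have hpow : (cexp ((x / M : ℝ) + y * I)) ^ M = u := by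
        rw [← Complex.exp_nat_mul, hu]
        have e : (M : ℂ) * (((x / M : ℝ) : ℂ) + (y : ℂ) * I) =
            (x + θ * I) + (j : ℂ) * (2 * Real.pi * I) := by
          rw [hy]
          push_cast
          field_simp
          ring
        rw [e, Complex.exp_add, Complex.exp_nat_mul_two_pi_mul_I, mul_one]
      set ζ : ℂ := (A + l u + x) / M + y * I with hζ
      set ζ' : ℂ := ((1 / M : ℝ) : ℂ) + y * I with hζ'
      have huE : u ∈ Ex := exp_mem_Ex hx0 θ
      have hTH : TH l Φ A M h₁ (cexp ((x / M : ℝ) + y * I)) =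
          h₁ (cexp ζ) + (Φ u - (1 - 1 / (M : ℂ)) * l u) := by
        unfold TH
        rw [hpow, ← Complex.exp_add]
        congr 3
        rw [hζ]
        push_cast
        ring
      have hre : ζ.re = (A + (l u).re + x) / M := by
        rw [hζ]
        have e : ((A : ℂ) + l u + x) / M = ((1 / M : ℝ) : ℂ) * (A + l u + x) := by
          push_cast
          ring
        rw [e, Complex.add_re, Complex.re_ofReal_mul]
        simp only [Complex.add_re, Complex.ofReal_re, Complex.mul_re, Complex.I_re,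
          Complex.ofReal_im, Complex.I_im]
        ring
      have hre1 : 1 / (M : ℝ) ≤ ζ.re := by
        rw [hre]
        apply div_le_div_of_nonneg_right _ hM0.le
        have := hDat.low u huE
        linarith
      have hre2 : 1 / (M : ℝ) ≤ ζ'.re := by
        rw [hζ']
        simp
      have hL := hlip ψ₁ h₁ hs1 (1 / M) h1M ζ ζ' hre1 hre2
      have hdiff : ζ - ζ' = ((1 / M : ℝ) : ℂ) * ((A : ℂ) + l u + x - 1) := by
        rw [hζ, hζ']
        push_cast
        ring
      have hnorm : 3 / (1 / (M : ℝ)) * ‖ζ - ζ'‖ = 3 * ‖(A : ℂ) + l u + x - 1‖ := by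
        rw [hdiff, norm_mul, Complex.norm_real, Real.norm_eq_abs, abs_of_pos h1M]
        field_simp
      rw [hnorm] at hL
      have hA1 := hDat.A1
      have hn2 : ‖(A : ℂ) + l u + x - 1‖ ≤ ‖l u‖ + |A| := by
        have e : (A : ℂ) + l u + x - 1 = l u + ((A + x - 1 : ℝ) : ℂ) := by
          push_cast
          ring
        rw [e]
        refine (norm_add_le _ _).trans ?_
        rw [Complex.norm_real, Real.norm_eq_abs]
        have : |A + x - 1| ≤ |A| := by
          rw [abs_of_nonneg (by linarith), abs_of_nonneg (by linarith)]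
          linarith
        linarith
      -- the distance
      have hdist : ‖TH l Φ A M h₁ (cexp ((x / M : ℝ) + y * I)) -
          (h₁ (cexp ζ') + h₂ (cexp (x + φ θ * I)))‖ ≤ D := by
        rw [hTH]
        have e : h₁ (cexp ζ) + (Φ u - (1 - 1 / (M : ℂ)) * l u) -
            (h₁ (cexp ζ') + h₂ (cexp (x + φ θ * I))) =
            (h₁ (cexp ζ) - h₁ (cexp ζ')) + (Φ u - h₂ (cexp (x + φ θ * I))) -
              (1 - 1 / (M : ℂ)) * l u := by ring
        rw [e]
        have h1 : ‖(1 - 1 / (M : ℂ)) * l u‖ ≤ ‖l u‖ := by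
          rw [norm_mul]
          have e2 : (1 - 1 / (M : ℂ)) = ((1 - 1 / M : ℝ) : ℂ) := by
            push_cast
            ring
          rw [e2, Complex.norm_real, Real.norm_eq_abs]
          have hM1 : 1 / (M : ℝ) ≤ 1 := by
            rw [div_le_one hM0]
            have : 1 ≤ M := by omega
            exact_mod_cast this
          have : |1 - 1 / (M : ℝ)| ≤ 1 := by
            rw [abs_of_nonneg (by linarith)]
            linarith
          calc |1 - 1 / (M : ℝ)| * ‖l u‖ ≤ 1 * ‖l u‖ := by gcongr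
            _ = ‖l u‖ := one_mul _
        refine (norm_sub_le _ _).trans ?_
        have h2 := norm_add_le (h₁ (cexp ζ) - h₁ (cexp ζ')) (Φ u - h₂ (cexp (x + φ θ * I)))
        rw [hDdef]
        linarith
      have hmain : (t * (h₁ (cexp ζ') + h₂ (cexp (x + φ θ * I)))).re - ‖t‖ * D ≤
          (t * TH l Φ A M h₁ (cexp ((x / M : ℝ) + y * I))).re := by
        have h1 : (t * (h₁ (cexp ζ') + h₂ (cexp (x + φ θ * I)))).re -
            (t * TH l Φ A M h₁ (cexp ((x / M : ℝ) + y * I))).re =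
            (t * -(TH l Φ A M h₁ (cexp ((x / M : ℝ) + y * I)) -
              (h₁ (cexp ζ') + h₂ (cexp (x + φ θ * I))))).re := by
          rw [← Complex.sub_re]
          congr 1
          ring
        have h2 := Complex.re_le_norm (t * -(TH l Φ A M h₁ (cexp ((x / M : ℝ) + y * I)) -
              (h₁ (cexp ζ') + h₂ (cexp (x + φ θ * I)))))
        rw [norm_mul, norm_neg] at h2
        have h3 := mul_le_mul_of_nonneg_left hdist (norm_nonneg t)
        linarith
      rw [hf, hf1, hF2]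
      simp only
      rw [← Real.exp_add, ← Real.exp_add]
      apply Real.exp_le_exp.2
      rw [mul_add, Complex.add_re] at hmain
      linarith)
    (by
      intro y y' hyy
      have hL := hlip ψ₁ h₁ hs1 (1 / M) h1M (((1 / M : ℝ) : ℂ) + y' * I) (((1 / M : ℝ) : ℂ) + y * I)
        (by simp) (by simp)
      have hdiff : (((1 / M : ℝ) : ℂ) + y' * I) - (((1 / M : ℝ) : ℂ) + y * I) =
          ((y' - y : ℝ) : ℂ) * I := by
        push_cast
        ring
      rw [hdiff, norm_mul, Complex.norm_I, mul_one, Complex.norm_real, Real.norm_eq_abs,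
        abs_sub_comm] at hL
      have h2 : 3 / (1 / (M : ℝ)) * |y - y'| ≤ 6 * Real.pi := by
        calc 3 / (1 / (M : ℝ)) * |y - y'| ≤ 3 / (1 / (M : ℝ)) * (2 * Real.pi / M) := by gcongr
          _ = 6 * Real.pi := by
            field_simp
            ring
      have h3 : ‖h₁ (cexp (((1 / M : ℝ) : ℂ) + y' * I)) - h₁ (cexp (((1 / M : ℝ) : ℂ) + y * I))‖ ≤
          6 * Real.pi := hL.trans h2
      rw [hf1]
      simp only
      rw [← Real.exp_add]
      apply Real.exp_le_exp.2
      have h4 := Complex.re_le_norm (t * (h₁ (cexp (((1 / M : ℝ) : ℂ) + y' * I)) -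
        h₁ (cexp (((1 / M : ℝ) : ℂ) + y * I))))
      rw [norm_mul, mul_sub, Complex.sub_re] at h4
      have h5 := mul_le_mul_of_nonneg_left h3 (norm_nonneg t)
      linarith)
  have hsub1 := hsub a b (Real.pi / 2 - δ') (Real.pi / 2 + δ') φ φ' F₂ hab (by linarith) hφ'c
    (fun θ hθ => ⟨(hφ θ hθ).1, (hφ θ hθ).2.1, (hφ θ hθ).2.2.1⟩) hφ1 hφ2 hF2c
    (fun _ => (Real.exp_pos _).le)
  have hpm1 : ∫ θ in (0:ℝ)..(2 * Real.pi), f₁ θ = 2 * Real.pi * pm t (1 / M) h₁ := by
    unfold pm
    rw [← mul_assoc, mul_one_div_cancel (by positivity), one_mul]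
  have hpmT : ∫ θ in (0:ℝ)..(2 * Real.pi), f θ = 2 * Real.pi * pm t (x / M) (TH l Φ A M h₁) := by
    unfold pm
    rw [← mul_assoc, mul_one_div_cancel (by positivity), one_mul]
  have hpm0 : ∀ (y : ℝ) (k : ℂ → ℂ), 0 ≤ pm t y k := by
    intro y k
    unfold pm
    apply mul_nonneg (by positivity)
    apply intervalIntegral.integral_nonneg (by positivity)
    intro θ _
    exact (Real.exp_pos _).le
  rw [hpm1, hpmT] at key
  have hFge : c / 2 * pm t x h ≤ ∫ θ in a..b, F₂ (φ θ) := by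
    refine le_trans ?_ hsub1
    have := mul_le_mul_of_nonneg_left hrot2 (show (0 : ℝ) ≤ 1 / 2 by norm_num)
    calc c / 2 * pm t x h = 1 / 2 * (c * pm t x h) := by ring
      _ ≤ _ := this
  have h1 : Real.exp (-(‖t‖ * D + ‖t‖ * (6 * Real.pi))) / (2 * Real.pi) *
      (2 * Real.pi * pm t (1 / M) h₁) * (c / 2 * pm t x h) ≤
      2 * Real.pi * pm t (x / M) (TH l Φ A M h₁) := by
    refine le_trans ?_ key
    apply mul_le_mul_of_nonneg_left hFge
    apply mul_nonneg
    · positivity
    · exact mul_nonneg (by positivity) (hpm0 _ _)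
  have h2 : Real.exp (-(‖t‖ * D + ‖t‖ * (6 * Real.pi))) * (c / (4 * Real.pi)) * pm t (1 / M) h₁ *
      pm t x h ≤ pm t (x / M) (TH l Φ A M h₁) := by
    have e : Real.exp (-(‖t‖ * D + ‖t‖ * (6 * Real.pi))) / (2 * Real.pi) *
        (2 * Real.pi * pm t (1 / M) h₁) * (c / 2 * pm t x h) = 2 * Real.pi *
        (Real.exp (-(‖t‖ * D + ‖t‖ * (6 * Real.pi))) * (c / (4 * Real.pi)) * pm t (1 / M) h₁ *
        pm t x h) := by
      field_simp
      ring
    rw [e] at h1
    exact le_of_mul_le_mul_left h1 (by positivity)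
  refine le_trans ?_ h2
  apply mul_le_mul_of_nonneg_right _ (hpm0 _ _)
  apply mul_le_mul_of_nonneg_right _ (hpm0 _ _)
  have e1 : c / (4 * Real.pi) = Real.exp (-Real.log (4 * Real.pi / c)) := by
    rw [Real.exp_neg, Real.exp_log (by positivity), inv_div]
  rw [e1, ← Real.exp_add]
  apply Real.exp_le_exp.2
  have e2 : Real.log (4 * Real.pi / c) ≤ |Real.log (4 * Real.pi / c)| := le_abs_self _
  have e3 : D + 6 * Real.pi ≤ (5 * B + 3 * |A| + 6 * Real.pi) * (1 + S) := by
    rw [hDdef]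
    have : 0 ≤ |A| := abs_nonneg _
    nlinarith
  have e4 : ‖t‖ * (D + 6 * Real.pi) ≤ ‖t‖ * (C * (1 + S)) := by
    apply mul_le_mul_of_nonneg_left _ (norm_nonneg _)
    refine e3.trans ?_
    apply mul_le_mul_of_nonneg_right _ (by linarith)
    rw [hC]
    linarith [abs_nonneg (Real.log (4 * Real.pi / c))]
  have e5 : |Real.log (4 * Real.pi / c)| ≤ C := by
    rw [hC]
    have : 0 ≤ 5 * B + 3 * |A| + 6 * Real.pi := by positivity
    linarith
  have e6 : C * ‖t‖ * (1 + S) = ‖t‖ * (C * (1 + S)) := by ring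
  rw [e6]
  linarith

end Pool.Agent.V5helper85.BM
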