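import Pool.Agent.V5helper85.BM.SUBROT

set_option autoImplicit false

/-!
# Project BM, job CLOSE: the class `Σ` is closed
-/

open Complex Filter Topology Set Metric MeasureTheory

namespace Pool.Agent.V5helper85.BM

open Pool.Agent.V5helper27.BM

theorem LR_nonneg {R : ℝ} (hR : 1 < R) : 0 ≤ LR R := by
  unfold LR
  apply Real.log_nonneg
  have h1 : 0 < R ^ 2 - 1 := by nlinarith
  rw [le_div_iff₀ h1]
  linarith

theorem LR_le {R : ℝ} (hR : 1 < R) : LR R ≤ 1 / (R ^ 2 - 1) := by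
  unfold LR
  have h1 : 0 < R ^ 2 - 1 := by nlinarith
  have h2 : 0 < R ^ 2 / (R ^ 2 - 1) := by positivity
  have h3 := Real.log_le_sub_one_of_pos h2
  have h4 : R ^ 2 / (R ^ 2 - 1) - 1 = 1 / (R ^ 2 - 1) := by
    field_simp
    ring
  linarith

/-- `LR` is antitone -/
theorem LR_anti {R R' : ℝ} (hR : 1 < R) (h : R ≤ R') : LR R' ≤ LR R := by
  unfold LR
  have h1 : 0 < R ^ 2 - 1 := by nlinarith
  have h2 : 0 < R' ^ 2 - 1 := by nlinarith
  have h3 : 0 < R' := by linarith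
  apply Real.log_le_log (by positivity)
  rw [div_le_div_iff₀ h2 h1]
  nlinarith

/-- the limit of the logarithms of the derivatives -/
theorem lim_props {Ψ Hh : ℕ → ℂ → ℂ} {h : ℂ → ℂ} (hg1 : S_gol1) (hs : ∀ n, IsSig (Ψ n) (Hh n))
    (hu : ∀ R : ℝ, 1 < R → TendstoUniformlyOn Hh h atTop {z : ℂ | R ≤ ‖z‖}) :
    DifferentiableOn ℂ h Ex ∧ (∀ z ∈ Ex, ‖h z‖ ≤ LR ‖z‖) ∧
      Tendsto h (Bornology.cobounded ℂ) (𝓝 0) := by
  have h1 : ∀ z ∈ Ex, ‖h z‖ ≤ LR ‖z‖ := by
    intro z hz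
    have hz' : 1 < ‖z‖ := hz
    have h2 : Tendsto (fun n => Hh n z) atTop (𝓝 (h z)) :=
      (hu ‖z‖ hz').tendsto_at (show ‖z‖ ≤ ‖z‖ from le_rfl)
    exact le_of_tendsto h2.norm (Eventually.of_forall fun n => hg1 (Ψ n) (Hh n) (hs n) z hz)
  refine ⟨?_, h1, ?_⟩
  · have h2 : TendstoLocallyUniformlyOn Hh h atTop Ex := by
      intro u hu' z hz
      obtain ⟨R, hR1, hR2⟩ := exists_between (show (1 : ℝ) < ‖z‖ from hz)
      refine ⟨{z : ℂ | R ≤ ‖z‖}, ?_, hu R hR1 u hu'⟩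
      apply mem_nhdsWithin_of_mem_nhds
      have : {z : ℂ | R < ‖z‖} ∈ 𝓝 z := (isOpen_lt continuous_const continuous_norm).mem_nhds hR2
      exact mem_of_superset this fun y (hy : R < ‖y‖) => (show R ≤ ‖y‖ from hy.le)
    exact h2.differentiableOn (Eventually.of_forall fun n => (hs n).2.2.2.1) isOpen_Ex
  · rw [tendsto_zero_iff_norm_tendsto_zero]
    have h3 : Tendsto (fun z : ℂ => 1 / (‖z‖ ^ 2 - 1)) (Bornology.cobounded ℂ) (𝓝 0) := by
      have h4 : Tendsto (fun z : ℂ => ‖z‖ ^ 2 - 1) (Bornology.cobounded ℂ) atTop := by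
        apply tendsto_atTop_add_const_right
        exact (tendsto_pow_atTop (by norm_num)).comp tendsto_norm_cobounded_atTop
      have h5 := h4.inv_tendsto_atTop
      refine h5.congr fun z => ?_
      rw [one_div]
      rfl
    refine squeeze_zero' (Eventually.of_forall fun z => norm_nonneg _) ?_ h3
    have : ∀ᶠ z in Bornology.cobounded ℂ, 1 < ‖z‖ :=
      tendsto_norm_cobounded_atTop.eventually_gt_atTop 1
    filter_upwards [this] with z hz
    exact (h1 z hz).trans (LR_le hz)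

/-- the value at `w` of `h (1 / w)`, `0` for `w = 0` -/
noncomputable def hh (h : ℂ → ℂ) (w : ℂ) : ℂ := by
  classical
  exact if w = 0 then 0 else h w⁻¹

theorem hh_zero (h : ℂ → ℂ) : hh h 0 = 0 := by simp [hh]

theorem hh_ne (h : ℂ → ℂ) {w : ℂ} (hw : w ≠ 0) : hh h w = h w⁻¹ := by simp [hh, hw]

theorem inv_mem_Ex {w : ℂ} (hw : w ∈ ball (0 : ℂ) 1) (hw0 : w ≠ 0) : w⁻¹ ∈ Ex := by
  change 1 < ‖w⁻¹‖
  rw [norm_inv]
  exact (one_lt_inv₀ (norm_pos_iff.2 hw0)).2 (mem_ball_zero_iff.1 hw)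

theorem hh_diff {h : ℂ → ℂ} (hd : DifferentiableOn ℂ h Ex)
    (ht : Tendsto h (Bornology.cobounded ℂ) (𝓝 0)) : DifferentiableOn ℂ (hh h) (ball 0 1) := by
  have h0 : ball (0 : ℂ) 1 ∈ 𝓝 (0 : ℂ) := isOpen_ball.mem_nhds (mem_ball_self one_pos)
  rw [← Complex.differentiableOn_compl_singleton_and_continuousAt_iff h0]
  constructor
  · intro w hw
    have hw0 : w ≠ 0 := hw.2
    have h1 : DifferentiableAt ℂ h w⁻¹ :=
      hd.differentiableAt (isOpen_Ex.mem_nhds (inv_mem_Ex hw.1 hw0))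
    have h2 : DifferentiableAt ℂ (fun w => h w⁻¹) w :=
      h1.comp w (differentiableAt_inv hw0)
    refine (h2.congr_of_eventuallyEq ?_).differentiableWithinAt
    filter_upwards [isOpen_ne.mem_nhds hw0] with x hx
    exact hh_ne h hx
  · rw [continuousAt_iff_punctured_nhds, hh_zero]
    have h1 : Tendsto (fun w : ℂ => h w⁻¹) (𝓝[≠] 0) (𝓝 0) := ht.comp tendsto_inv₀_nhdsNE_zero
    refine h1.congr' ?_
    filter_upwards [self_mem_nhdsWithin] with w hw
    exact (hh_ne h hw).symm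

/-- the primitive -/
theorem exists_psi {h : ℂ → ℂ} (hd : DifferentiableOn ℂ h Ex) (hb : ∀ z ∈ Ex, ‖h z‖ ≤ LR ‖z‖)
    (ht : Tendsto h (Bornology.cobounded ℂ) (𝓝 0)) : ∃ ψ : ℂ → ℂ,
      (∀ z ∈ Ex, HasDerivAt ψ (cexp (h z)) z) ∧
      ∃ b : ℂ, Tendsto (fun z => ψ z - z) (Bornology.cobounded ℂ) (𝓝 b) := by
  have hH := hh_diff hd ht
  set E : ℂ → ℂ := fun w => cexp (hh h w) - 1 with hE
  have hEd : DifferentiableOn ℂ E (ball 0 1) := hH.cexp.sub_const 1
  have hn0 : ball (0 : ℂ) 1 ∈ 𝓝 (0 : ℂ) := isOpen_ball.mem_nhds (mem_ball_self one_pos)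
  have hE0 : E 0 = 0 := by
    rw [hE]
    simp [hh_zero]
  -- the bound near 0
  have hEb : ∀ w : ℂ, w ≠ 0 → ‖w‖ < 1 / 2 → ‖E w‖ ≤ 4 * ‖w‖ ^ 2 := by
    intro w hw0 hw
    have hwpos : 0 < ‖w‖ := norm_pos_iff.2 hw0
    have hwb : w ∈ ball (0 : ℂ) 1 := by
      rw [mem_ball_zero_iff]
      linarith
    have h1 := hb _ (inv_mem_Ex hwb hw0)
    have h2 : 1 < ‖w⁻¹‖ := inv_mem_Ex hwb hw0
    have h3 := h1.trans (LR_le h2)
    have h4 : 1 / (‖w⁻¹‖ ^ 2 - 1) ≤ 2 * ‖w‖ ^ 2 := by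
      rw [norm_inv]
      have h5 : 0 < ‖w‖⁻¹ ^ 2 - 1 := by
        rw [norm_inv] at h2
        nlinarith
      rw [div_le_iff₀ h5]
      have h6 : ‖w‖ ^ 2 * ‖w‖⁻¹ ^ 2 = 1 := by
        rw [← mul_pow, mul_inv_cancel₀ hwpos.ne', one_pow]
      nlinarith
    have h5 : ‖hh h w‖ ≤ 2 * ‖w‖ ^ 2 := by
      rw [hh_ne h hw0]
      exact h3.trans h4
    have h6 : ‖hh h w‖ ≤ 1 := by nlinarith
    have h7 := Complex.norm_exp_sub_one_le h6
    calc ‖E w‖ ≤ 2 * ‖hh h w‖ := h7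
      _ ≤ 4 * ‖w‖ ^ 2 := by linarith
  -- divide by w twice
  set D1 : ℂ → ℂ := dslope E 0 with hD1
  have hD1d : DifferentiableOn ℂ D1 (ball 0 1) := (Complex.differentiableOn_dslope hn0).2 hEd
  have hD1n : ∀ w : ℂ, w ≠ 0 → D1 w = E w / w := by
    intro w hw
    rw [hD1, dslope_of_ne _ hw, slope_def_field, hE0, sub_zero, sub_zero]
  have hD10 : D1 0 = 0 := by
    have hc : ContinuousAt D1 0 := (hD1d.differentiableAt hn0).continuousAt
    have h1 : Tendsto D1 (𝓝[≠] 0) (𝓝 (D1 0)) := hc.tendsto.mono_left nhdsWithin_le_nhds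
    have h2 : Tendsto D1 (𝓝[≠] 0) (𝓝 0) := by
      rw [tendsto_zero_iff_norm_tendsto_zero]
      have h3 : Tendsto (fun w : ℂ => 4 * ‖w‖) (𝓝[≠] 0) (𝓝 0) := by
        have : Tendsto (fun w : ℂ => 4 * ‖w‖) (𝓝 0) (𝓝 (4 * ‖(0 : ℂ)‖)) :=
          (continuous_const.mul continuous_norm).tendsto 0
        rw [norm_zero, mul_zero] at this
        exact this.mono_left nhdsWithin_le_nhds
      refine squeeze_zero' (Eventually.of_forall fun z => norm_nonneg _) ?_ h3
      have h4 : ball (0 : ℂ) (1 / 2) ∈ 𝓝[≠] (0 : ℂ) :=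
        mem_nhdsWithin_of_mem_nhds (isOpen_ball.mem_nhds (mem_ball_self (by norm_num)))
      filter_upwards [h4, self_mem_nhdsWithin] with w hw hw0
      have hw0' : w ≠ 0 := hw0
      rw [hD1n w hw0', norm_div, div_le_iff₀ (norm_pos_iff.2 hw0')]
      have := hEb w hw0' (mem_ball_zero_iff.1 hw)
      nlinarith
    exact tendsto_nhds_unique h1 h2
  set D2 : ℂ → ℂ := dslope D1 0 with hD2
  have hD2d : DifferentiableOn ℂ D2 (ball 0 1) := (Complex.differentiableOn_dslope hn0).2 hD1d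
  have hD2n : ∀ w : ℂ, w ≠ 0 → D2 w = E w / w ^ 2 := by
    intro w hw
    rw [hD2, dslope_of_ne _ hw, slope_def_field, hD10, sub_zero, sub_zero, hD1n w hw, div_div,
      pow_two]
  obtain ⟨K, hK⟩ := hD2d.isExactOn_ball
  have hKd : ∀ w ∈ ball (0 : ℂ) 1, HasDerivAt K (D2 w) w := hK
  refine ⟨fun z => z - K z⁻¹, fun z hz => ?_, ⟨-K 0, ?_⟩⟩
  · have hz' : 1 < ‖z‖ := hz
    have hz0 : z ≠ 0 := by
      rintro rfl
      rw [norm_zero] at hz'
      linarith
    have hzi : z⁻¹ ∈ ball (0 : ℂ) 1 := by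
      rw [mem_ball_zero_iff, norm_inv]
      exact inv_lt_one_of_one_lt₀ hz'
    have h1 := (hKd _ hzi).comp z (hasDerivAt_inv hz0)
    have h2 := (hasDerivAt_id z).sub h1
    have e : (1 : ℂ) - D2 z⁻¹ * -(z ^ 2)⁻¹ = cexp (h z) := by
      rw [hD2n _ (inv_ne_zero hz0), hE]
      simp only
      rw [hh_ne h (inv_ne_zero hz0), inv_inv]
      field_simp
      ring
    rw [e] at h2
    exact h2
  · have hKc : ContinuousAt K 0 := (hKd 0 (mem_ball_self one_pos)).continuousAt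
    have h1 : Tendsto (fun z : ℂ => K z⁻¹) (Bornology.cobounded ℂ) (𝓝 (K 0)) :=
      hKc.tendsto.comp tendsto_inv₀_cobounded
    refine h1.neg.congr fun z => ?_
    ring

theorem closel (hg : S_gol) (hg1 : S_gol1) : S_close := by
  intro Ψ Hh h hs hu
  obtain ⟨hd, hb, ht⟩ := lim_props hg1 hs hu
  obtain ⟨ψ, hψ, b, hψb⟩ := exists_psi hd hb ht
  refine ⟨ψ, fun z hz => (hψ z hz).differentiableAt.differentiableWithinAt, ?_, ⟨b, hψb⟩, hd,
    fun z hz => (hψ z hz).deriv.symm, ht⟩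
  -- convergence of the differences
  have hconv : ∀ z ∈ Ex, ∀ z' ∈ Ex, Tendsto (fun n => Ψ n z - Ψ n z') atTop (𝓝 (ψ z - ψ z')) := by
    intro z hz z' hz'
    have hz1 : 1 < ‖z‖ := hz
    have hz1' : 1 < ‖z'‖ := hz'
    have hz0 : z ≠ 0 := by
      rintro rfl
      rw [norm_zero] at hz1
      linarith
    have hz0' : z' ≠ 0 := by
      rintro rfl
      rw [norm_zero] at hz1'
      linarith
    set ρ := min ‖z‖ ‖z'‖ with hρ
    have hρ1 : 1 < ρ := lt_min hz1 hz1'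
    have hρ0 : 0 < ρ := by linarith
    set T := max ‖z‖ ‖z'‖ with hT
    have hT0 : 0 < T := by
      have : ‖z‖ ≤ T := le_max_left _ _
      linarith
    set s : Set ℂ := {ζ : ℂ | Real.log ρ ≤ ζ.re ∧ ζ.re ≤ Real.log T} with hsdef
    have hsc : Convex ℝ s := by
      have e : s = {ζ : ℂ | Real.log ρ ≤ ζ.re} ∩ {ζ : ℂ | ζ.re ≤ Real.log T} := rfl
      rw [e]
      exact (convex_halfSpace_re_ge _).inter (convex_halfSpace_re_le _)
    have hexpE : ∀ ζ ∈ s, ρ ≤ ‖cexp ζ‖ ∧ ‖cexp ζ‖ ≤ T := by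
      intro ζ hζ
      rw [Complex.norm_exp]
      constructor
      · rw [← Real.exp_log hρ0]
        exact Real.exp_le_exp.2 hζ.1
      · rw [← Real.exp_log hT0]
        exact Real.exp_le_exp.2 hζ.2
    have hζ : Complex.log z ∈ s := by
      constructor
      · rw [Complex.log_re]
        exact Real.log_le_log hρ0 (min_le_left _ _)
      · rw [Complex.log_re]
        exact Real.log_le_log (by linarith) (le_max_left _ _)
    have hζ' : Complex.log z' ∈ s := by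
      constructor
      · rw [Complex.log_re]
        exact Real.log_le_log hρ0 (min_le_right _ _)
      · rw [Complex.log_re]
        exact Real.log_le_log (by linarith) (le_max_right _ _)
    -- bound for the difference
    rw [Metric.tendsto_atTop]
    intro ε hε
    set c := T * ‖Complex.log z - Complex.log z'‖ + 1 with hc
    have hc0 : 0 < c := by
      have : 0 ≤ T * ‖Complex.log z - Complex.log z'‖ := by positivity
      linarith
    have hexp : TendstoUniformlyOn (fun n z => cexp (Hh n z)) (fun z => cexp (h z)) atTop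
        {z : ℂ | ρ ≤ ‖z‖} := by
      rw [Metric.tendstoUniformlyOn_iff]
      intro η hη
      have h1 := hu ρ hρ1
      rw [Metric.tendstoUniformlyOn_iff] at h1
      set L := Real.exp (LR ρ) with hL
      have hL0 : 0 < L := Real.exp_pos _
      filter_upwards [h1 (min 1 (η / (4 * L))) (by positivity)] with n hn y hy
      have hy' : ρ ≤ ‖y‖ := hy
      have h2 := hn y hy
      rw [dist_comm, dist_eq_norm] at h2 ⊢
      have h3 : ‖Hh n y - h y‖ ≤ 1 := (h2.trans_le (min_le_left _ _)).le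
      have e : cexp (Hh n y) - cexp (h y) = cexp (h y) * (cexp (Hh n y - h y) - 1) := by
        rw [mul_sub, ← Complex.exp_add, mul_one]
        congr 2
        ring
      rw [e, norm_mul]
      have h4 : ‖cexp (h y)‖ ≤ L := by
        rw [Complex.norm_exp]
        apply Real.exp_le_exp.2
        refine (Complex.re_le_norm _).trans ((hb y (lt_of_lt_of_le hρ1 hy')).trans ?_)
        exact LR_anti hρ1 hy'
      have h5 := Complex.norm_exp_sub_one_le h3
      have h6 : ‖Hh n y - h y‖ < η / (4 * L) := h2.trans_le (min_le_right _ _)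
      calc ‖cexp (h y)‖ * ‖cexp (Hh n y - h y) - 1‖ ≤ L * (2 * (η / (4 * L))) := by
            apply mul_le_mul h4 _ (norm_nonneg _) hL0.le
            linarith
        _ = η / 2 := by
            field_simp
            ring
        _ < η := by linarith
    rw [Metric.tendstoUniformlyOn_iff] at hexp
    obtain ⟨n₀, hn₀⟩ := eventually_atTop.1 (hexp (ε / c) (by positivity))
    refine ⟨n₀, fun n hn => ?_⟩
    have hder : ∀ ζ ∈ s, HasDerivWithinAt (fun ζ => Ψ n (cexp ζ) - ψ (cexp ζ))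
        ((cexp (Hh n (cexp ζ)) - cexp (h (cexp ζ))) * cexp ζ) s ζ := by
      intro ζ hζs
      have hE : cexp ζ ∈ Ex := lt_of_lt_of_le hρ1 (hexpE ζ hζs).1
      have h1 : HasDerivAt (Ψ n) (cexp (Hh n (cexp ζ))) (cexp ζ) := by
        rw [(hs n).2.2.2.2.1 _ hE]
        exact ((hs n).1.differentiableAt (isOpen_Ex.mem_nhds hE)).hasDerivAt
      have h2 := h1.comp ζ (Complex.hasDerivAt_exp ζ)
      have h3 := (hψ _ hE).comp ζ (Complex.hasDerivAt_exp ζ)
      have h4 := h2.sub h3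
      rw [← sub_mul] at h4
      exact h4.hasDerivWithinAt
    have hbd : ∀ ζ ∈ s, ‖(cexp (Hh n (cexp ζ)) - cexp (h (cexp ζ))) * cexp ζ‖ ≤ ε / c * T := by
      intro ζ hζs
      rw [norm_mul]
      have h1 := hn₀ n hn (cexp ζ) (hexpE ζ hζs).1
      rw [dist_comm, dist_eq_norm] at h1
      exact mul_le_mul h1.le (hexpE ζ hζs).2 (norm_nonneg _) (by positivity)
    have hmv := Convex.norm_image_sub_le_of_norm_hasDerivWithin_le hder hbd hsc hζ' hζ
    rw [Complex.exp_log hz0, Complex.exp_log hz0'] at hmv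
    rw [dist_eq_norm]
    have e : Ψ n z - Ψ n z' - (ψ z - ψ z') = Ψ n z - ψ z - (Ψ n z' - ψ z') := by ring
    rw [e]
    refine lt_of_le_of_lt hmv ?_
    have h1 : ε / c * T * ‖Complex.log z - Complex.log z'‖ =
        ε * ((T * ‖Complex.log z - Complex.log z'‖) / c) := by ring
    rw [h1]
    have h2 : (T * ‖Complex.log z - Complex.log z'‖) / c < 1 := by
      rw [div_lt_one hc0]
      linarith
    calc ε * ((T * ‖Complex.log z - Complex.log z'‖) / c) < ε * 1 :=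
          mul_lt_mul_of_pos_left h2 hε
      _ = ε := mul_one ε
  -- injectivity
  intro z hz z' hz' heq
  by_contra hne
  have hz1 : 1 < ‖z‖ := hz
  have hz1' : 1 < ‖z'‖ := hz'
  have h1 := hconv z hz z' hz'
  rw [heq, sub_self] at h1
  have h2 : ∀ n, ‖z - z'‖ * Real.exp (-Real.sqrt (LR ‖z‖ * LR ‖z'‖)) ≤ ‖Ψ n z - Ψ n z'‖ := by
    intro n
    obtain ⟨G, -, hG1, hG2⟩ := hg (Ψ n) (Hh n) (hs n) z' hz1'
    rw [← hG1 z hz, norm_mul, mul_comm, Complex.norm_exp]
    apply mul_le_mul_of_nonneg_right _ (norm_nonneg _)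
    apply Real.exp_le_exp.2
    have h3 := hG2 z hz
    have h4 := abs_le.1 (Complex.abs_re_le_norm (G z))
    linarith [h4.1]
  have h3 : ‖z - z'‖ * Real.exp (-Real.sqrt (LR ‖z‖ * LR ‖z'‖)) ≤ ‖(0 : ℂ)‖ :=
    ge_of_tendsto h1.norm (Eventually.of_forall h2)
  rw [norm_zero] at h3
  have h4 : 0 < ‖z - z'‖ * Real.exp (-Real.sqrt (LR ‖z‖ * LR ‖z'‖)) :=
    mul_pos (norm_pos_iff.2 (sub_ne_zero.2 hne)) (Real.exp_pos _)
  linarith

end Pool.Agent.V5helper85.BM
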