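import Pool.Agent.V5helper27.BM.Stm

set_option autoImplicit false

/-!
# Project BM, jobs SUB (substitution on an arc) and ROT (rotation and pigeonhole)
-/

open Complex Filter Topology Set Metric MeasureTheory

namespace Pool.Agent.V5helper85.BM

open Pool.Agent.V5helper27.BM

theorem subl : S_sub := by
  intro a b c d φ φ' F hab hcd hφ' hφ hac hbd hF hF0
  have hcont : ContinuousOn φ (Icc a b) := fun θ hθ => ((hφ θ hθ).1.continuousAt).continuousWithinAt
  have h1 : ∫ θ in a..b, (F ∘ φ) θ * φ' θ = ∫ u in φ a..φ b, F u := by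
    apply intervalIntegral.integral_comp_mul_deriv
    · intro x hx
      rw [uIcc_of_le hab] at hx
      exact (hφ x hx).1
    · rw [uIcc_of_le hab]
      exact hφ'
    · exact hF
  have hint1 : IntervalIntegrable (fun θ => (F ∘ φ) θ * φ' θ) volume a b := by
    apply ContinuousOn.intervalIntegrable_of_Icc hab
    exact (hF.comp_continuousOn hcont).mul hφ'
  have hint2 : IntervalIntegrable (fun θ => F (φ θ)) volume a b := by
    apply ContinuousOn.intervalIntegrable_of_Icc hab
    exact hF.comp_continuousOn hcont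
  have h2 : ∫ θ in a..b, (F ∘ φ) θ * φ' θ ≤ ∫ θ in a..b, F (φ θ) * 2 := by
    apply intervalIntegral.integral_mono_on hab hint1 (hint2.mul_const 2)
    intro θ hθ
    exact mul_le_mul_of_nonneg_left (hφ θ hθ).2.2 (hF0 _)
  rw [intervalIntegral.integral_mul_const, h1] at h2
  have h3 : ∫ x in c..d, F x ≤ ∫ u in φ a..φ b, F u := by
    apply intervalIntegral.integral_mono_interval hac hcd hbd
    · exact Filter.Eventually.of_forall fun y => hF0 _
    · exact hF.intervalIntegrable _ _
  linarith

theorem isOpen_Ex : IsOpen Ex := isOpen_lt continuous_const continuous_norm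

theorem exp_mem_Ex {x : ℝ} (hx : 0 < x) (θ : ℝ) : cexp (x + θ * I) ∈ Ex := by
  change 1 < ‖cexp (x + θ * I)‖
  rw [Complex.norm_exp]
  have : ((x : ℂ) + θ * I).re = x := by simp
  rw [this]
  exact Real.one_lt_exp_iff.2 hx

/-- rotation -/
theorem isSig_rot {ψ h : ℂ → ℂ} (hs : IsSig ψ h) (α : ℝ) :
    IsSig (fun z => cexp (-(α * I)) * ψ (cexp (α * I) * z)) (fun z => h (cexp (α * I) * z)) := by
  obtain ⟨h1, h2, ⟨b, h3⟩, h4, h5, h6⟩ := hs
  have hn : ∀ z : ℂ, ‖cexp (α * I) * z‖ = ‖z‖ := by
    intro z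
    rw [norm_mul, Complex.norm_exp_ofReal_mul_I, one_mul]
  have hmaps : MapsTo (fun z : ℂ => cexp (α * I) * z) {z : ℂ | 1 < ‖z‖} {z : ℂ | 1 < ‖z‖} := by
    intro z hz
    change 1 < ‖cexp (α * I) * z‖
    rw [hn z]
    exact hz
  have hE : cexp (-(α * I)) * cexp (α * I) = 1 := by
    rw [← Complex.exp_add]
    simp
  have hd : Differentiable ℂ fun z : ℂ => cexp (α * I) * z := by fun_prop
  have hcob : Tendsto (fun z : ℂ => cexp (α * I) * z) (Bornology.cobounded ℂ)
      (Bornology.cobounded ℂ) := by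
    rw [← tendsto_norm_atTop_iff_cobounded]
    simp only [hn]
    exact tendsto_norm_cobounded_atTop
  refine ⟨?_, ?_, ⟨cexp (-(α * I)) * b, ?_⟩, ?_, ?_, ?_⟩
  · exact (h1.comp hd.differentiableOn hmaps).const_mul _
  · intro z hz w hw heq
    have e1 := mul_left_cancel₀ (Complex.exp_ne_zero _) heq
    have e2 := h2 (hmaps hz) (hmaps hw) e1
    exact mul_left_cancel₀ (Complex.exp_ne_zero _) e2
  · have e1 := (h3.comp hcob).const_mul (cexp (-(α * I)))
    refine e1.congr fun z => ?_
    simp only [Function.comp_apply]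
    rw [mul_sub, ← mul_assoc, hE, one_mul]
  · exact h4.comp hd.differentiableOn hmaps
  · intro z hz
    have hz' : 1 < ‖cexp (α * I) * z‖ := hmaps hz
    rw [h5 _ hz']
    have e1 : HasDerivAt ψ (deriv ψ (cexp (α * I) * z)) (cexp (α * I) * z) :=
      (h1.differentiableAt (isOpen_Ex.mem_nhds hz')).hasDerivAt
    have e2 : HasDerivAt (fun z : ℂ => cexp (α * I) * z) (cexp (α * I)) z := by
      simpa using (hasDerivAt_id z).const_mul (cexp (α * I))
    have e3 := (e1.comp z e2).const_mul (cexp (-(α * I)))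
    have e4 : deriv (fun z => cexp (-(α * I)) * ψ (cexp (α * I) * z)) z =
        cexp (-(α * I)) * (deriv ψ (cexp (α * I) * z) * cexp (α * I)) := e3.deriv
    rw [e4]
    calc deriv ψ (cexp (α * I) * z) = (cexp (-(α * I)) * cexp (α * I)) *
        deriv ψ (cexp (α * I) * z) := by rw [hE, one_mul]
      _ = _ := by ring
  · exact h6.comp hcob

theorem continuous_circle {h : ℂ → ℂ} (hh : DifferentiableOn ℂ h Ex) {x : ℝ} (hx : 0 < x) (t : ℂ) :
    Continuous fun θ : ℝ => Real.exp (t * h (cexp (x + θ * I))).re := by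
  have h1 : Continuous fun θ : ℝ => h (cexp (x + θ * I)) := by
    apply hh.continuousOn.comp_continuous
    · fun_prop
    · intro θ
      exact exp_mem_Ex hx θ
  exact Real.continuous_exp.comp (Complex.continuous_re.comp (continuous_const.mul h1))

theorem periodic_circle (h : ℂ → ℂ) (x : ℝ) (t : ℂ) :
    Function.Periodic (fun θ : ℝ => Real.exp (t * h (cexp (x + θ * I))).re) (2 * Real.pi) := by
  intro θ
  have e : ((x : ℂ) + ((θ + 2 * Real.pi : ℝ) : ℂ) * I) = (x + θ * I) + 2 * Real.pi * I := by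
    push_cast
    ring
  simp only [e, Complex.exp_periodic _]

theorem rot : S_rot := by
  intro δ hδ0 hδ1
  have hpi := Real.pi_pos
  have hpi3 := Real.pi_gt_three
  set N := ⌈Real.pi / δ⌉₊ with hN
  have hN1 : Real.pi / δ ≤ N := Nat.le_ceil _
  have hN0 : (0 : ℝ) < N := lt_of_lt_of_le (by positivity) hN1
  have hN2 : Real.pi / N ≤ δ := by
    rw [div_le_iff₀ hN0]
    rw [div_le_iff₀ hδ0] at hN1
    linarith
  refine ⟨2 * Real.pi / N, by positivity, fun ψ h hs t x hx => ?_⟩
  set g : ℝ → ℝ := fun θ => Real.exp (t * h (cexp (x + θ * I))).re with hg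
  have hgc : Continuous g := continuous_circle hs.2.2.2.1 hx t
  have hg0 : ∀ θ, 0 ≤ g θ := fun θ => (Real.exp_pos _).le
  have hsum := intervalIntegral.sum_integral_adjacent_intervals (μ := volume) (f := g)
    (a := fun k : ℕ => 2 * Real.pi * k / N) (n := N)
    (fun k _ => hgc.intervalIntegrable _ _)
  have e1 : 2 * Real.pi * ((0 : ℕ) : ℝ) / N = 0 := by simp
  have e2 : 2 * Real.pi * ((N : ℕ) : ℝ) / N = 2 * Real.pi := by field_simp
  simp only [e1, e2] at hsum
  have hne : (Finset.range N).Nonempty := by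
    rw [Finset.nonempty_range_iff]
    intro h0
    rw [h0] at hN0
    simp at hN0
  obtain ⟨j, -, hj⟩ := Finset.exists_le_of_sum_le (s := Finset.range N)
    (f := fun _ => (∫ θ in (0:ℝ)..(2 * Real.pi), g θ) / N)
    (g := fun k : ℕ => ∫ x in 2 * Real.pi * k / N..2 * Real.pi * ((k + 1 : ℕ) : ℝ) / N, g x) hne (by
      rw [hsum, Finset.sum_const, Finset.card_range, nsmul_eq_mul]
      apply le_of_eq
      field_simp)
  set α : ℝ := 2 * Real.pi * j / N + Real.pi / N - Real.pi / 2 with hα
  refine ⟨_, _, isSig_rot hs α, ?_⟩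
  have e3 : ∀ φ : ℝ, Real.exp (t * h (cexp (α * I) * cexp (x + φ * I))).re = g (φ + α) := by
    intro φ
    rw [hg]
    simp only
    rw [← Complex.exp_add]
    have e : ((α : ℂ) * I + (x + φ * I)) = x + ((φ + α : ℝ) : ℂ) * I := by
      push_cast
      ring
    rw [e]
  simp only [e3]
  have e4 : ∫ φ in (Real.pi / 2 - δ)..(Real.pi / 2 + δ), g (φ + α) =
      ∫ φ in (Real.pi / 2 - δ + α)..(Real.pi / 2 + δ + α), g φ :=
    intervalIntegral.integral_comp_add_right g α
  rw [e4]
  calc 2 * Real.pi / N * pm t x h = (∫ θ in (0:ℝ)..(2 * Real.pi), g θ) / N := by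
        unfold pm
        field_simp
        rfl
    _ ≤ ∫ x in 2 * Real.pi * j / N..2 * Real.pi * ((j + 1 : ℕ) : ℝ) / N, g x := hj
    _ ≤ _ := by
        have e5 : 2 * Real.pi * ((j + 1 : ℕ) : ℝ) / N = 2 * Real.pi * j / N + 2 * (Real.pi / N) := by
          push_cast
          ring
        have hpN : 0 < Real.pi / N := by positivity
        apply intervalIntegral.integral_mono_interval
        · rw [hα]
          linarith
        · rw [e5]
          linarith
        · rw [e5, hα]
          linarith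
        · exact Filter.Eventually.of_forall fun y => hg0 _
        · exact hgc.intervalIntegrable _ _

end Pool.Agent.V5helper85.BM
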